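import Pool.Agent.Q147.TRCard

/-!
# MP_fdc1ac, Q1: a sigma-closed topological Ramsey space with `p ≠ t`

The space consists of the labelled infinite sets `(l, X)`; the labels are `A n` and `C k`, with
`C k` below `A n` iff `n ≤ k`, and `X ⊆ [k, ∞)` if the label is `C k`. It satisfies `p = ℵ₀` and
`t ≥ ℵ₁`, in ZFC.
-/

namespace Pool.Agent.Results.MP_fdc1ac_lc.PBelowT

open Pool.Agent.Q147.TR Cardinal

/-- **There is a sigma-closed topological Ramsey space with `p = ℵ₀`, with towers and with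
`t ≥ ℵ₁`.** -/
theorem result : ∃ S : SigmaTRS, Countable S.AR ∧ (∃ F, S.IsTower F) ∧ S.p = ℵ₀ ∧ ℵ₁ ≤ S.t ∧
    S.p ≠ S.t := by
  refine ⟨theSpace, countable_AR, exists_tower, p_eq, theSpace.aleph_one_le_t exists_tower, ?_⟩
  rw [p_eq]
  intro h
  have h1 := theSpace.aleph_one_le_t exists_tower
  rw [← h] at h1
  exact absurd h1 (not_le.2 Cardinal.aleph0_lt_aleph_one)

end Pool.Agent.Results.MP_fdc1ac_lc.PBelowT
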